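import Pool.Agent.Helper787.RNValdivia

set_option autoImplicit false

/-!
# No Radon-Nikodym Valdivia compact space contains a copy of the ordinal interval up to omega_2
-/

namespace Pool.Agent.Results.MP_3028b5_gt.NoOmegaTwo

universe u

/-- `A` is a `Σ`-subset of `K`: for some homeomorphic embedding of `K` into a power of the real
line, `A` consists of the points of `K` with countable support. -/
def IsSigmaSubset {K : Type u} [TopologicalSpace K] (A : Set K) : Prop :=
  ∃ (Γ : Type u) (h : K → Γ → ℝ), Topology.IsEmbedding h ∧ A = {x | {γ | h x γ ≠ 0}.Countable}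

/-- `K` is Valdivia: it has a dense `Σ`-subset. -/
def IsValdivia (K : Type u) [TopologicalSpace K] : Prop :=
  ∃ A : Set K, Dense A ∧ IsSigmaSubset A

/-- `K` is Radon-Nikodym: there is a lower semicontinuous metric `d` on `K` that fragments `K`,
i.e. every nonempty subset `L` has, for every `ε > 0`, a nonempty relatively open subset `U ∩ L`
whose `d`-diameter is less than `ε`. -/
def IsRadonNikodym (K : Type u) [TopologicalSpace K] : Prop :=
  ∃ d : K → K → ℝ,
    (∀ x y, 0 ≤ d x y) ∧ (∀ x y, d x y = 0 ↔ x = y) ∧ (∀ x y, d x y = d y x) ∧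
    (∀ x y z, d x z ≤ d x y + d y z) ∧
    LowerSemicontinuous (fun p : K × K => d p.1 p.2) ∧
    ∀ L : Set K, L.Nonempty → ∀ ε : ℝ, 0 < ε → ∃ U : Set K, IsOpen U ∧ (U ∩ L).Nonempty ∧
      ∃ η < ε, ∀ x ∈ U ∩ L, ∀ y ∈ U ∩ L, d x y ≤ η

/-- **Main theorem.**  A compact Hausdorff space that is both Radon-Nikodym and Valdivia contains
no subspace homeomorphic to the ordinal interval `[0, ω₂]` with its order topology. -/
theorem result (K : Type u) [TopologicalSpace K] [CompactSpace K] [T2Space K]
    (hRN : IsRadonNikodym K) (hV : IsValdivia K) :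
    ¬ ∃ f : Set.Iic (Ordinal.omega.{u} 2) → K, Topology.IsEmbedding f := by
  obtain ⟨d, h0, h1, _, _, hlsc, hfrag⟩ := hRN
  obtain ⟨A, hA, Γ, h, hemb, rfl⟩ := hV
  have hsupp : ∀ q : K, Cardinal.mk {γ | h q γ ≠ 0} ≤ Cardinal.aleph 1 := by
    intro q
    refine Pool.Agent.Helper787.RNValdivia.card_supp_le hemb hA (d := d) ?_ hlsc ?_ q
    · intro x y hxy
      exact lt_of_le_of_ne (h0 x y) (fun e => hxy ((h1 x y).mp e.symm))
    · intro L hL ε hε
      obtain ⟨U, hU, hne, η, hη, hd⟩ := hfrag L hL ε hε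
      exact ⟨U, hU, hne, fun x hx y hy => (hd x hx y hy).trans_lt hη⟩
  have := Pool.Agent.Helper787.RNValdivia.no_copy hemb hsupp
  rwa [Cardinal.ord_aleph] at this

end Pool.Agent.Results.MP_3028b5_gt.NoOmegaTwo
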